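import Mathlib
import Pool.Agent.H93.RG.Cnt
import Pool.Agent.H93.RG.Dec
import Pool.Agent.H93.RG.Cov

/-!
# FG for blocks of size `r`: the switching lemma (port of H3/Ac/Sw)

Let `|V| = r m + ℓ`, `2 ^ (r + 2) w ℓ^(r r) ≤ m + 1`. For one list `F` the number of bad `ρ ∈ Mtc r V m` is at
most `∑_j ∑_{μ ∈ Mtc r V (m + j)} #{ρ | DecR r F j μ ∅ ρ}`, sum over `j` with `k < r j` and `j ≤ |V|`, which is at
most `|Mtc r V m| ∑_j (2 w ℓ^(r (r - 1)) * ℓ^r / (m + 1))^j ≤ |Mtc r V m| ∑_{k < r j} 2^(- (r + 1) j)`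
`≤ |Mtc r V m| 2^(- (k + 1))`.
-/

set_option autoImplicit false
set_option linter.unusedSectionVars false

namespace Pool.Agent.H86.RG

open Finset
open Pool.Agent.H93.RG

variable {V : Type} [Fintype V] [DecidableEq V] {r : ℕ}

open scoped Classical in
theorem card_bad_le (hr : 1 ≤ r) (w ℓ k m : ℕ) (hn : r * m + ℓ = Fintype.card V)
    (hw : 2 ^ (r + 2) * w * ℓ ^ (r * r) ≤ m + 1) (F : List (Finset (Finset V)))
    (hF : ∀ t ∈ F, IsM r t ∧ t.card ≤ w) :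
    (((Mtc r V m).filter fun ρ => Bad r F k ρ).card : ℝ) * (3 * 2 ^ k) ≤ 2 * (Mtc r V m).card := by
  have hm : (0 : ℝ) < (m : ℝ) + 1 := by positivity
  -- the union
  have hsub : ((Mtc r V m).filter fun ρ => Bad r F k ρ) ⊆
      (Ico (k / r + 1) (Fintype.card V + 1)).biUnion fun j => (Mtc r V (m + j)).biUnion fun μ =>
        univ.filter fun ρ => DecR r F j μ ∅ ρ := by
    intro ρ hρ
    rw [mem_filter] at hρ
    obtain ⟨h1, h2⟩ := mem_Mtc.1 hρ.1
    obtain ⟨j, μ, h3, h4, h5, h6⟩ := bad_dec hr F k h1 hρ.2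
    have h7 := card_cov h4
    have h8 : (cov μ).card ≤ Fintype.card V := card_le_univ _
    have h9 : j ≤ Fintype.card V := by
      have h10 : j ≤ r * μ.card := by
        rw [h5]
        calc j ≤ ρ.card + j := Nat.le_add_left _ _
          _ = 1 * (ρ.card + j) := (one_mul _).symm
          _ ≤ r * (ρ.card + j) := Nat.mul_le_mul_right _ hr
      omega
    have h11 : k / r < j := Nat.div_lt_of_lt_mul h3
    rw [mem_biUnion]
    refine ⟨j, mem_Ico.2 ⟨by omega, by omega⟩, ?_⟩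
    rw [mem_biUnion]
    refine ⟨μ, mem_Mtc.2 ⟨h4, by rw [h5, h2]⟩, ?_⟩
    rw [mem_filter]
    exact ⟨mem_univ _, h6⟩
  have h1 : ((Mtc r V m).filter fun ρ => Bad r F k ρ).card ≤
      ∑ j ∈ Ico (k / r + 1) (Fintype.card V + 1),
        (Mtc r V (m + j)).card * (2 * w * ℓ ^ (r * (r - 1))) ^ j := by
    refine (card_le_card hsub).trans (card_biUnion_le.trans (sum_le_sum fun j _ => ?_))
    refine card_biUnion_le.trans ?_
    rw [← smul_eq_mul, ← sum_const]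
    refine sum_le_sum fun μ hμ => ?_
    obtain ⟨h2, h3⟩ := mem_Mtc.1 hμ
    have h4 := card_DecR hr F w ℓ hF j μ ∅ h2 (by rw [h3, ← hn, mul_add]; omega)
    convert h4
  have hx : (2 * w * (ℓ : ℝ) ^ (r * (r - 1))) * ((ℓ : ℝ) ^ r / (m + 1)) ≤ 1 / 2 ^ (r + 1) := by
    have h2 : (2 : ℝ) ^ (r + 2) * w * (ℓ : ℝ) ^ (r * r) ≤ m + 1 := by exact_mod_cast hw
    have e1 : (ℓ : ℝ) ^ (r * (r - 1)) * (ℓ : ℝ) ^ r = (ℓ : ℝ) ^ (r * r) := by
      rw [← pow_add]
      congr 1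
      obtain ⟨s, rfl⟩ : ∃ s, r = s + 1 := ⟨r - 1, by omega⟩
      rw [Nat.add_sub_cancel]
      ring
    have h4 : (0 : ℝ) < 2 ^ (r + 1) := by positivity
    rw [← mul_div_assoc, div_le_iff₀ hm]
    have h3 : 2 * (w : ℝ) * (ℓ : ℝ) ^ (r * (r - 1)) * (ℓ : ℝ) ^ r =
        (1 / 2 ^ (r + 1)) * (2 ^ (r + 2) * w * (ℓ : ℝ) ^ (r * r)) := by
      rw [mul_assoc, e1, pow_succ 2 (r + 1)]
      field_simp
    rw [h3]
    exact mul_le_mul_of_nonneg_left h2 (by positivity)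
  have hx0 : (0 : ℝ) ≤ (2 * w * (ℓ : ℝ) ^ (r * (r - 1))) * ((ℓ : ℝ) ^ r / (m + 1)) := by positivity
  have h2 : (((Mtc r V m).filter fun ρ => Bad r F k ρ).card : ℝ) ≤
      (Mtc r V m).card * ∑ j ∈ Ico (k / r + 1) (Fintype.card V + 1), (1 / 2 ^ (r + 1) : ℝ) ^ j := by
    have h3 : (((Mtc r V m).filter fun ρ => Bad r F k ρ).card : ℝ) ≤
        ∑ j ∈ Ico (k / r + 1) (Fintype.card V + 1),
          ((Mtc r V (m + j)).card : ℝ) * (2 * w * (ℓ : ℝ) ^ (r * (r - 1))) ^ j := by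
      exact_mod_cast h1
    refine h3.trans ?_
    rw [mul_sum]
    refine sum_le_sum fun j _ => ?_
    calc ((Mtc r V (m + j)).card : ℝ) * (2 * w * (ℓ : ℝ) ^ (r * (r - 1))) ^ j ≤
          ((Mtc r V m).card * ((ℓ : ℝ) ^ r / (m + 1)) ^ j) * (2 * w * (ℓ : ℝ) ^ (r * (r - 1))) ^ j :=
          mul_le_mul_of_nonneg_right (card_Mtc_add hr m ℓ hn j) (by positivity)
      _ = (Mtc r V m).card * ((2 * w * (ℓ : ℝ) ^ (r * (r - 1))) * ((ℓ : ℝ) ^ r / (m + 1))) ^ j := by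
          rw [mul_pow]
          ring
      _ ≤ (Mtc r V m).card * (1 / 2 ^ (r + 1) : ℝ) ^ j :=
          mul_le_mul_of_nonneg_left (pow_le_pow_left₀ hx0 hx j) (by positivity)
  have h3 : ∑ j ∈ Ico (k / r + 1) (Fintype.card V + 1), (1 / 2 ^ (r + 1) : ℝ) ^ j ≤
      1 / 2 ^ (k + 1) := by
    have h4 : ∀ j ∈ Ico (k / r + 1) (Fintype.card V + 1), (1 / 2 ^ (r + 1) : ℝ) ^ j ≤
        1 / 2 ^ (k + 1) * (1 / 2) ^ j := by
      intro j hj
      have h5 : k / r + 1 ≤ j := (mem_Ico.1 hj).1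
      have h6 : k + 1 ≤ r * j := by
        have h7 : k < r * (k / r + 1) := Nat.lt_mul_div_succ k hr
        have h8 : r * (k / r + 1) ≤ r * j := Nat.mul_le_mul_left _ h5
        omega
      have h9 : (1 / 2 ^ (r + 1) : ℝ) ^ j = 1 / 2 ^ (r * j) * (1 / 2) ^ j := by
        rw [one_div_pow, one_div_pow, ← pow_mul, add_mul, one_mul, pow_add, one_div_mul_one_div]
      rw [h9]
      refine mul_le_mul_of_nonneg_right ?_ (by positivity)
      exact one_div_le_one_div_of_le (by positivity) (pow_le_pow_right₀ (by norm_num) h6)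
    refine (sum_le_sum h4).trans ?_
    rw [← mul_sum]
    have h5 : ∑ j ∈ Ico (k / r + 1) (Fintype.card V + 1), (1 / 2 : ℝ) ^ j ≤
        (1 / 2 : ℝ) ^ (k / r + 1) / (1 - 1 / 2) :=
      geom_sum_Ico_le_of_lt_one (by norm_num) (by norm_num)
    have h6 : (1 / 2 : ℝ) ^ (k / r + 1) / (1 - 1 / 2) ≤ 1 := by
      rw [pow_succ]
      have h7 : (1 / 2 : ℝ) ^ (k / r) ≤ 1 := pow_le_one₀ (by norm_num) (by norm_num)
      rw [div_le_one (by norm_num)]
      linarith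
    have h8 : (0 : ℝ) ≤ 1 / 2 ^ (k + 1) := by positivity
    calc (1 / 2 ^ (k + 1) : ℝ) * ∑ j ∈ Ico (k / r + 1) (Fintype.card V + 1), (1 / 2 : ℝ) ^ j ≤
          1 / 2 ^ (k + 1) * 1 := mul_le_mul_of_nonneg_left (h5.trans h6) h8
      _ = 1 / 2 ^ (k + 1) := mul_one _
  have hc0 : (0 : ℝ) ≤ (Mtc r V m).card := Nat.cast_nonneg _
  have h5 : (((Mtc r V m).filter fun ρ => Bad r F k ρ).card : ℝ) ≤
      (Mtc r V m).card * (1 / 2 ^ (k + 1)) :=
    h2.trans (mul_le_mul_of_nonneg_left h3 hc0)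
  calc (((Mtc r V m).filter fun ρ => Bad r F k ρ).card : ℝ) * (3 * 2 ^ k) ≤
        ((Mtc r V m).card * (1 / 2 ^ (k + 1))) * (3 * 2 ^ k) :=
        mul_le_mul_of_nonneg_right h5 (by positivity)
    _ = 3 / 2 * (Mtc r V m).card := by
        rw [pow_succ 2 k]
        field_simp
    _ ≤ 2 * (Mtc r V m).card := by linarith

/-- the switching lemma, in the form of the existence of a good base for at most `2 ^ k` lists -/
theorem exists_good (hr : 1 ≤ r) {ι : Type} [Fintype ι] (w ℓ k m : ℕ) (hn : r * m + ℓ = Fintype.card V)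
    (hw : 2 ^ (r + 2) * w * ℓ ^ (r * r) ≤ m + 1) (F : ι → List (Finset (Finset V)))
    (hF : ∀ i, ∀ t ∈ F i, IsM r t ∧ t.card ≤ w) (hι : Fintype.card ι ≤ 2 ^ k) :
    ∃ ρ, IsM r ρ ∧ ρ.card = m ∧ ∀ i, ¬ Bad r (F i) k ρ := by
  classical
  by_contra hcon
  push Not at hcon
  have h1 : Mtc r V m ⊆ univ.biUnion fun i => (Mtc r V m).filter fun ρ => Bad r (F i) k ρ := by
    intro ρ hρ
    obtain ⟨h2, h3⟩ := mem_Mtc.1 hρ
    obtain ⟨i, hi⟩ := hcon ρ h2 h3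
    rw [mem_biUnion]
    exact ⟨i, mem_univ _, mem_filter.2 ⟨hρ, hi⟩⟩
  have h2 : (Mtc r V m).card ≤ ∑ i, ((Mtc r V m).filter fun ρ => Bad r (F i) k ρ).card :=
    (card_le_card h1).trans card_biUnion_le
  have h3 : ((Mtc r V m).card : ℝ) * (3 * 2 ^ k) ≤ Fintype.card ι * (2 * (Mtc r V m).card) := by
    have h4 : ((Mtc r V m).card : ℝ) ≤
        ∑ i, (((Mtc r V m).filter fun ρ => Bad r (F i) k ρ).card : ℝ) := by exact_mod_cast h2
    calc ((Mtc r V m).card : ℝ) * (3 * 2 ^ k) ≤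
          (∑ i, (((Mtc r V m).filter fun ρ => Bad r (F i) k ρ).card : ℝ)) * (3 * 2 ^ k) :=
          mul_le_mul_of_nonneg_right h4 (by positivity)
      _ = ∑ i, (((Mtc r V m).filter fun ρ => Bad r (F i) k ρ).card : ℝ) * (3 * 2 ^ k) := by
          rw [sum_mul]
      _ ≤ ∑ _i : ι, 2 * ((Mtc r V m).card : ℝ) := by
          refine sum_le_sum fun i _ => ?_
          have h5 := card_bad_le hr w ℓ k m hn hw (F i) (hF i)
          convert h5
      _ = Fintype.card ι * (2 * (Mtc r V m).card) := by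
          rw [sum_const, card_univ, nsmul_eq_mul]
  have h4 : (0 : ℝ) < (Mtc r V m).card := by
    exact_mod_cast card_pos.2 (Mtc_nonempty hr m (by omega))
  have h5 : (Fintype.card ι : ℝ) ≤ 2 ^ k := by exact_mod_cast hι
  have h6 : (0 : ℝ) < 2 ^ k := by positivity
  have h7 : (Fintype.card ι : ℝ) * (2 * (Mtc r V m).card) ≤ 2 ^ k * (2 * (Mtc r V m).card) :=
    mul_le_mul_of_nonneg_right h5 (by positivity)
  nlinarith [mul_pos h4 h6]

end Pool.Agent.H86.RG
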